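import Mathlib
import Pool.Agent.Lib.MP_cc6207_co.Main

set_option autoImplicit false

open Filter

namespace Pool.Agent.Results.MP_cc6207_co.TwinFreeDivergence

/-- `G` is `H`-saturated: `G` has no subgraph isomorphic to `H`, and adding any missing edge creates one. -/
def Saturated {α β : Type} (H : SimpleGraph α) (G : SimpleGraph β) : Prop :=
  ¬ H.IsContained G ∧
    ∀ u v : β, u ≠ v → ¬ G.Adj u v → H.IsContained (G ⊔ SimpleGraph.edge u v)

/-- No two distinct vertices have the same open neighbourhood. -/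
def TwinFree {β : Type} (G : SimpleGraph β) : Prop :=
  ∀ u v : β, u ≠ v → G.neighborSet u ≠ G.neighborSet v

/-- The least number of edges of a twin-free `H`-saturated graph on `n` vertices
(it is `0` when there is no such graph). -/
noncomputable def tsat {α : Type} (n : ℕ) (H : SimpleGraph α) : ℕ :=
  sInf {k : ℕ | ∃ G : SimpleGraph (Fin n), TwinFree G ∧ Saturated H G ∧ G.edgeSet.ncard = k}

lemma contained_iff {m n : ℕ} (H : SimpleGraph (Fin m)) (G : SimpleGraph (Fin n)) :
    H.IsContained G ↔ ∃ f : Fin m → Fin n, Function.Injective f ∧ ∀ a b, H.Adj a b → G.Adj (f a) (f b) := by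
  constructor
  · rintro ⟨c⟩
    exact ⟨c, c.injective, fun a b hab => c.toHom.map_adj hab⟩
  · rintro ⟨f, hf, h⟩
    exact ⟨⟨⟨f, fun {a b} hab => h a b hab⟩, hf⟩⟩

lemma saturated_iff {n : ℕ} (G : SimpleGraph (Fin n)) :
    Saturated Pool.Agent.MP_cc6207_co.HF G ↔ Pool.Agent.MP_cc6207_co.Sat G := by
  rw [← Pool.Agent.MP_cc6207_co.sat_iff]
  unfold Saturated
  rw [contained_iff]
  apply and_congr_right
  intro _
  have key : ∀ u v : Fin n, u ≠ v → (Pool.Agent.MP_cc6207_co.HF.IsContained (G ⊔ SimpleGraph.edge u v) ↔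
      ∃ f : Fin (Fintype.card Pool.Agent.MP_cc6207_co.W) → Fin n, Function.Injective f ∧
          ∀ a b, Pool.Agent.MP_cc6207_co.HF.Adj a b →
            (G.Adj (f a) (f b) ∨ (f a = u ∧ f b = v) ∨ (f a = v ∧ f b = u))) := by
    intro u v huv
    rw [contained_iff]
    apply exists_congr
    intro f
    apply and_congr_right
    intro hf
    apply forall_congr'
    intro a
    apply forall_congr'
    intro b
    apply imp_congr_right
    intro hab
    have hne : f a ≠ f b := fun h => hab.ne (hf h)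
    rw [SimpleGraph.sup_adj, SimpleGraph.edge_adj]
    constructor
    · rintro (h | h)
      · exact Or.inl h
      · have := h.1; tauto
    · rintro (h | h)
      · exact Or.inl h
      · exact Or.inr ⟨by tauto, hne⟩
  constructor
  · intro h u v huv hn
    exact (key u v huv).mp (h u v huv hn)
  · intro h u v huv hn
    exact (key u v huv).mpr (h u v huv hn)

/-- There is a graph `H` such that twin-free `H`-saturated graphs on `n` vertices exist for all large `n`,
`tsat n H = O(n)`, and `tsat n H / n` does not converge. -/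
theorem result : ∃ (m : ℕ) (H : SimpleGraph (Fin m)),
    (∃ C N : ℕ, ∀ n : ℕ, N ≤ n →
      (∃ G : SimpleGraph (Fin n), TwinFree G ∧ Saturated H G) ∧ tsat n H ≤ C * n) ∧
    ¬ ∃ L : ℝ, Tendsto (fun n : ℕ => (tsat n H : ℝ) / (n : ℝ)) atTop (nhds L) := by
  classical
  refine ⟨_, Pool.Agent.MP_cc6207_co.HF, ⟨329, 616, ?_⟩, ?_⟩
  · intro n hn
    obtain ⟨G, h1, h2⟩ := Pool.Agent.MP_cc6207_co.exists_sat n (by omega)
    have h3 := Pool.Agent.MP_cc6207_co.twin_free G h1 h2.1 hn
    refine ⟨⟨G, h3, (saturated_iff G).mpr h2⟩, ?_⟩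
    have h4 : tsat n Pool.Agent.MP_cc6207_co.HF ≤ G.edgeSet.ncard :=
      Nat.sInf_le ⟨G, h3, (saturated_iff G).mpr h2, rfl⟩
    have h5 := Pool.Agent.MP_cc6207_co.deg_sum G h1 h2.1 hn
    rw [Pool.Agent.MP_cc6207_co.two_edges] at h5
    have h6 : (n - 16) % 100 ≤ 99 := by omega
    have h7 : (131 + 2 * ((n - 16) % 100)) * n ≤ 329 * n := Nat.mul_le_mul_right _ (by omega)
    omega
  · intro hlim
    refine Pool.Agent.MP_cc6207_co.limit_fail
      (fun n G => TwinFree G ∧ Pool.Agent.MP_cc6207_co.Sat G) (fun n G h => h.2) ?_ ?_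
    · intro n hn
      obtain ⟨G, h1, h2⟩ := Pool.Agent.MP_cc6207_co.exists_sat n (by omega)
      exact ⟨G, ⟨Pool.Agent.MP_cc6207_co.twin_free G h1 h2.1 hn, h2⟩, h1⟩
    · obtain ⟨L, hL⟩ := hlim
      refine ⟨L, ?_⟩
      convert hL using 4 with n
      unfold tsat
      congr 1
      ext k
      constructor
      · rintro ⟨G, ⟨h1, h2⟩, hk⟩
        exact ⟨G, h1, (saturated_iff G).mpr h2, hk⟩
      · rintro ⟨G, h1, h2, hk⟩
        exact ⟨G, ⟨h1, (saturated_iff G).mp h2⟩, hk⟩

end Pool.Agent.Results.MP_cc6207_co.TwinFreeDivergence
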